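import Pool.Agent.Q266.RP.Stm2

/-! Project RP (helper266), job PSP. -/

set_option autoImplicit false

namespace Pool.Agent.Q192.RP

open Pool.Agent.Q266.RP

theorem fil_mono (h : S_FILC) {G : Type} [Group G] (k i : ℕ) : Fil G (k + i) ≤ Fil G k := by
  induction i with
  | zero => exact le_rfl
  | succ i ih => exact ((h G).2.2 (k + i)).trans ih

theorem ps_pow (h : S_FILC) {G : Type} [Group G] (r : ℕ) : ∀ (k i : ℕ) (c : G), c ∈ Fil G (k + i) →
    PS r k (fun n => c ^ (n.choose i)) := by
  induction r with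
  | zero =>
    intro k i c hc n
    exact Subgroup.pow_mem _ (fil_mono h k i hc) _
  | succ r ih =>
    intro k i c hc
    refine ⟨fun n => Subgroup.pow_mem _ (fil_mono h k i hc) _, ?_⟩
    rcases i with _ | j
    · have h1 := ih (k + 1) 0 (1 : G) (Subgroup.one_mem _)
      have h2 : (fun n : ℕ => c ^ ((n + 1).choose 0) * (c ^ (n.choose 0))⁻¹) =
          fun n : ℕ => (1 : G) ^ (n.choose 0) := by
        funext n
        simp
      rw [h2]
      exact h1
    · have h1 := ih (k + 1) j c (by
        have e : k + 1 + j = k + (j + 1) := by omega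
        rw [e]
        exact hc)
      have h2 : (fun n : ℕ => c ^ ((n + 1).choose (j + 1)) * (c ^ (n.choose (j + 1)))⁻¹) =
          fun n : ℕ => c ^ (n.choose j) := by
        funext n
        rw [Nat.choose_succ_succ, pow_add, mul_assoc, mul_inv_cancel, mul_one]
      rw [h2]
      exact h1

theorem ps_val {G : Type} [Group G] (k : ℕ) : ∀ (l : ℕ) (g : ℕ → G), PS k l g →
    (∀ n < k, g n = 1) → g k ∈ Fil G (l + k) := by
  induction k with
  | zero =>
    intro l g hg _
    exact hg 0
  | succ k ih =>
    intro l g hg h1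
    have h2 := ih (l + 1) (fun n => g (n + 1) * (g n)⁻¹) hg.2 (by
      intro n hn
      show g (n + 1) * (g n)⁻¹ = 1
      rw [h1 (n + 1) (by omega), h1 n (by omega)]
      simp)
    have h3 : g (k + 1) * (g k)⁻¹ = g (k + 1) := by
      rw [h1 k (by omega)]
      simp
    have h4 : g (k + 1) * (g k)⁻¹ ∈ Fil G (l + 1 + k) := h2
    rw [h3] at h4
    have e : l + 1 + k = l + (k + 1) := by omega
    rw [e] at h4
    exact h4

theorem psp : S_FILC → S_PSP := fun h =>
  ⟨fun _ _ r k i c hc => ps_pow h r k i c hc, fun _ _ k l g hg h1 => ps_val k l g hg h1⟩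

end Pool.Agent.Q192.RP
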